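import Mathlib

/-!
# Common zeros of Bessel functions: statements of the pieces
-/

set_option autoImplicit false

open Metric Set Filter Topology

namespace Pool.Agent.E8helper32.SB

/-- the function `0F1 (; μ + 1; -k)` of a real variable, a Bessel function -/
noncomputable def Bf (μ k : ℝ) : ℝ :=
  ∑' j : ℕ, (-k) ^ j / ((j.factorial : ℝ) * ∏ i ∈ Finset.range j, (μ + i + 1))

/-- the function `0F1 (; μ + 1; -κ)` of a complex variable -/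
noncomputable def Fc (μ : ℝ) (κ : ℂ) : ℂ :=
  ∑' k : ℕ, (-κ) ^ k / ((k.factorial : ℂ) * ∏ j ∈ Finset.range k, ((μ : ℂ) + j + 1))

/-- the derivative -/
def S_BDER : Prop := ∀ μ k : ℝ, -1 < μ → HasDerivAt (Bf μ) (-(Bf (μ + 1) k / (μ + 1))) k

/-- the recurrence -/
def S_BREC : Prop := ∀ μ k : ℝ, (∀ n : ℕ, μ + n + 1 ≠ 0) →
  Bf μ k = Bf (μ + 1) k - k / ((μ + 1) * (μ + 2)) * Bf (μ + 2) k

/-- continuity in the order -/
def S_BCONT : Prop := ∀ k : ℝ, ContinuousOn (fun μ => Bf μ k) (Icc 0 2)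

/-- the zeros are isolated -/
def S_BFIN : Prop := ∀ μ K : ℝ, -1 < μ → {k : ℝ | 0 ≤ k ∧ k ≤ K ∧ Bf μ k = 0}.Finite

/-- the zeros of `J_1` are real -/
def S_BREAL : Prop := ∀ κ : ℂ, Fc 1 κ = 0 → ∃ k : ℝ, 0 < k ∧ κ = k

/-- comparison of orders -/
def S_STURM : Prop := ∀ μ ν a ξ : ℝ, 0 < μ → μ < ν → 0 ≤ a → a < ξ → (a = 0 ∨ Bf ν a = 0) →
  Bf ν ξ = 0 → ∃ b : ℝ, a < b ∧ b < ξ ∧ Bf μ b = 0

/-- gaps -/
def S_GAP : Prop := ∀ S B : Finset ℝ, (∀ a ∈ S, ∀ ξ ∈ S, a < ξ → ∃ b ∈ B, a < b ∧ b < ξ) →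
  S.card ≤ B.card + 1

end Pool.Agent.E8helper32.SB
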