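import Pool.Agent.E8helper32.SB.Main
import Pool.Agent.E8helper41.SB.Basic
import Pool.Agent.E8helper92.SB.Bfin
import Pool.Agent.E8helper99.SB.Breal
import Pool.Agent.E8helper51.SB.Sturm

/-!
# `J_1` and `J_{-ν}` have no common zero for `0 < ν < 2`, `ν ≠ 1`
-/

set_option autoImplicit false

namespace Pool.Agent.E8helper32.SB

/-- **No common zeros.** -/
theorem besselNC {κ : ℂ} (h1 : Fc 1 κ = 0) {ν : ℝ} (hν0 : 0 < ν) (hν2 : ν < 2) (hν1 : ν ≠ 1) :
    Fc (-ν) κ ≠ 0 :=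
  no_common Pool.Agent.E8helper41.SB.t_BDER Pool.Agent.E8helper41.SB.t_BREC
    Pool.Agent.E8helper41.SB.t_BCONT Pool.Agent.E8helper92.SB.bfin
    (Pool.Agent.E8helper51.SB.sturm Pool.Agent.E8helper41.SB.t_BDER
      Pool.Agent.E8helper41.SB.t_BREC Pool.Agent.E8helper92.SB.bfin)
    Pool.Agent.E8helper99.SB.breal Pool.Agent.E8helper92.SB.fc_real h1 hν0 hν2 hν1

end Pool.Agent.E8helper32.SB
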