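import Pool.Agent.E8helper32.SB.Stm

/-!
# `J_1` and `J_{-ν}` have no common zero for `0 < ν < 2`, `ν ≠ 1`
-/

set_option autoImplicit false

open Metric Set Filter Topology

namespace Pool.Agent.E8helper32.SB

theorem gap : S_GAP := by
  intro S
  induction S using Finset.induction_on_max with
  | empty => intro B _; simp
  | insert m S' hm ih =>
    intro B hB
    have hmS : m ∉ S' := fun h => lt_irrefl _ (hm m h)
    rw [Finset.card_insert_of_notMem hmS]
    rcases S'.eq_empty_or_nonempty with h0 | hne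
    · rw [h0]
      simp
    · set m' := S'.max' hne with hm'
      have hm'S : m' ∈ S' := S'.max'_mem hne
      obtain ⟨b, hb, h1, h2⟩ := hB m' (Finset.mem_insert_of_mem hm'S) m
        (Finset.mem_insert_self _ _) (hm m' hm'S)
      have h3 := ih (B.filter (· < m')) (by
        intro a ha ξ hξ haξ
        obtain ⟨b', hb', h4, h5⟩ := hB a (Finset.mem_insert_of_mem ha) ξ
          (Finset.mem_insert_of_mem hξ) haξ
        refine ⟨b', Finset.mem_filter.2 ⟨hb', lt_of_lt_of_le h5 (S'.le_max' ξ hξ)⟩, h4, h5⟩)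
      have h4 : (insert b (B.filter (· < m'))) ⊆ B := by
        intro x hx
        rcases Finset.mem_insert.1 hx with h | h
        · rw [h]; exact hb
        · exact (Finset.mem_filter.1 h).1
      have h5 := Finset.card_le_card h4
      rw [Finset.card_insert_of_notMem (fun h => by
        have := (Finset.mem_filter.1 h).2
        linarith)] at h5
      omega

/-- the positive zeros below `K` -/
def Z (μ K : ℝ) : Set ℝ := {k : ℝ | 0 < k ∧ k < K ∧ Bf μ k = 0}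

theorem Z_fin (hFIN : S_BFIN) {μ : ℝ} (hμ : -1 < μ) (K : ℝ) : (Z μ K).Finite :=
  (hFIN μ K hμ).subset fun _ h => ⟨h.1.le, h.2.1.le, h.2.2⟩

/-- zeros of a faster function -/
theorem G1 (hFIN : S_BFIN) (hST : S_STURM) {μ ν K : ℝ} (hμ : 0 < μ) (hμν : μ < ν) (hK : 0 < K)
    (h : Bf ν K = 0) : (Z ν K).ncard + 1 ≤ (Z μ K).ncard := by
  have hfν := Z_fin hFIN (μ := ν) (by linarith) K
  have hfμ := Z_fin hFIN (μ := μ) (by linarith) K
  have h1 := gap (insert 0 (insert K hfν.toFinset)) hfμ.toFinset (by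
    have hmem : ∀ x ∈ insert 0 (insert K hfν.toFinset), x ≠ 0 → 0 < x ∧ x ≤ K ∧ Bf ν x = 0 := by
      intro x hx hx0
      rw [Finset.mem_insert, Finset.mem_insert, Finite.mem_toFinset] at hx
      rcases hx with h2 | h2 | h2
      · exact absurd h2 hx0
      · rw [h2]; exact ⟨hK, le_rfl, h⟩
      · exact ⟨h2.1, h2.2.1.le, h2.2.2⟩
    intro a ha ξ hξ haξ
    have ha' : 0 ≤ a ∧ (a = 0 ∨ Bf ν a = 0) := by
      by_cases h0 : a = 0
      · exact ⟨h0.ge, Or.inl h0⟩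
      · obtain ⟨h2, -, h3⟩ := hmem a ha h0
        exact ⟨h2.le, Or.inr h3⟩
    obtain ⟨h2, h3, h4⟩ := hmem ξ hξ (by linarith [ha'.1])
    obtain ⟨b, h5, h6, h7⟩ := hST μ ν a ξ hμ hμν ha'.1 haξ ha'.2 h4
    exact ⟨b, hfμ.mem_toFinset.2 ⟨by linarith [ha'.1], by linarith, h7⟩, h5, h6⟩)
  rw [Finset.card_insert_of_notMem (by
    rw [Finset.mem_insert, Finite.mem_toFinset, not_or]
    exact ⟨hK.ne, fun h2 => lt_irrefl _ h2.1⟩), Finset.card_insert_of_notMem (by
    rw [Finite.mem_toFinset]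
    exact fun h2 => lt_irrefl _ h2.2.1), ← ncard_eq_toFinset_card _ hfν,
    ← ncard_eq_toFinset_card _ hfμ] at h1
  omega

theorem G1' (hFIN : S_BFIN) (hST : S_STURM) {μ ν K : ℝ} (hμ : 0 < μ) (hμν : μ < ν) :
    (Z ν K).ncard ≤ (Z μ K).ncard := by
  have hfν := Z_fin hFIN (μ := ν) (by linarith) K
  have hfμ := Z_fin hFIN (μ := μ) (by linarith) K
  have h1 := gap (insert 0 hfν.toFinset) hfμ.toFinset (by
    have hmem : ∀ x ∈ insert 0 hfν.toFinset, x ≠ 0 → 0 < x ∧ x < K ∧ Bf ν x = 0 := by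
      intro x hx hx0
      rw [Finset.mem_insert, Finite.mem_toFinset] at hx
      rcases hx with h2 | h2
      · exact absurd h2 hx0
      · exact ⟨h2.1, h2.2.1, h2.2.2⟩
    intro a ha ξ hξ haξ
    have ha' : 0 ≤ a ∧ (a = 0 ∨ Bf ν a = 0) := by
      by_cases h0 : a = 0
      · exact ⟨h0.ge, Or.inl h0⟩
      · obtain ⟨h2, -, h3⟩ := hmem a ha h0
        exact ⟨h2.le, Or.inr h3⟩
    obtain ⟨h2, h3, h4⟩ := hmem ξ hξ (by linarith [ha'.1])
    obtain ⟨b, h5, h6, h7⟩ := hST μ ν a ξ hμ hμν ha'.1 haξ ha'.2 h4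
    exact ⟨b, hfμ.mem_toFinset.2 ⟨by linarith [ha'.1], by linarith, h7⟩, h5, h6⟩)
  rw [Finset.card_insert_of_notMem (by
    rw [Finite.mem_toFinset]
    exact fun h2 => lt_irrefl _ h2.1), ← ncard_eq_toFinset_card _ hfν,
    ← ncard_eq_toFinset_card _ hfμ] at h1
  omega

/-- Rolle -/
theorem rolle (hDER : S_BDER) {μ a ξ : ℝ} (hμ : -1 < μ) (haξ : a < ξ) (ha : Bf μ a = 0)
    (hξ : Bf μ ξ = 0) : ∃ b, a < b ∧ b < ξ ∧ Bf (μ + 1) b = 0 := by
  obtain ⟨b, hb, h1⟩ := exists_deriv_eq_zero haξ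
    (fun x _ => (hDER μ x hμ).continuousAt.continuousWithinAt) (ha.trans hξ.symm)
  refine ⟨b, hb.1, hb.2, ?_⟩
  rw [(hDER μ b hμ).deriv, neg_eq_zero, div_eq_zero_iff] at h1
  exact h1.resolve_right (by linarith)

theorem G2 (hDER : S_BDER) (hFIN : S_BFIN) {μ K : ℝ} (hμ : -1 < μ) :
    (Z μ K).ncard ≤ (Z (μ + 1) K).ncard + 1 := by
  have hf := Z_fin hFIN hμ K
  have hf1 := Z_fin hFIN (μ := μ + 1) (by linarith) K
  have h1 := gap hf.toFinset hf1.toFinset (by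
    intro a ha ξ hξ haξ
    rw [Finite.mem_toFinset] at ha hξ
    obtain ⟨b, h2, h3, h4⟩ := rolle hDER hμ haξ ha.2.2 hξ.2.2
    exact ⟨b, hf1.mem_toFinset.2 ⟨by linarith [ha.1], by linarith [hξ.2.1], h4⟩, h2, h3⟩)
  rwa [← ncard_eq_toFinset_card _ hf, ← ncard_eq_toFinset_card _ hf1] at h1

theorem G2' (hDER : S_BDER) (hFIN : S_BFIN) {μ K : ℝ} (hμ : -1 < μ) (hK : 0 < K)
    (h : Bf μ K = 0) : (Z μ K).ncard ≤ (Z (μ + 1) K).ncard := by
  have hf := Z_fin hFIN hμ K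
  have hf1 := Z_fin hFIN (μ := μ + 1) (by linarith) K
  have h1 := gap (insert K hf.toFinset) hf1.toFinset (by
    have hmem : ∀ x ∈ insert K hf.toFinset, 0 < x ∧ x ≤ K ∧ Bf μ x = 0 := by
      intro x hx
      rw [Finset.mem_insert, Finite.mem_toFinset] at hx
      rcases hx with h2 | h2
      · rw [h2]; exact ⟨hK, le_rfl, h⟩
      · exact ⟨h2.1, h2.2.1.le, h2.2.2⟩
    intro a ha ξ hξ haξ
    obtain ⟨ha1, ha2, ha3⟩ := hmem a ha
    obtain ⟨hx1, hx2, hx3⟩ := hmem ξ hξ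
    obtain ⟨b, h2, h3, h4⟩ := rolle hDER hμ haξ ha3 hx3
    exact ⟨b, hf1.mem_toFinset.2 ⟨by linarith, by linarith, h4⟩, h2, h3⟩)
  rw [Finset.card_insert_of_notMem (by
    rw [Finite.mem_toFinset]
    exact fun h2 => lt_irrefl _ h2.2.1), ← ncard_eq_toFinset_card _ hf,
    ← ncard_eq_toFinset_card _ hf1] at h1
  omega

/-- no common zeros for orders between `0` and `2` -/
theorem ne_of_pos (hDER : S_BDER) (hFIN : S_BFIN) (hST : S_STURM) {K : ℝ} (hK : 0 < K)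
    (h1 : Bf 1 K = 0) {μ : ℝ} (hμ0 : 0 < μ) (hμ2 : μ < 2) (hμ1 : μ ≠ 1) : Bf μ K ≠ 0 := by
  intro h
  rcases lt_or_gt_of_ne hμ1 with hlt | hgt
  · have a1 := G1 hFIN hST hμ0 hlt hK h1
    have a2 := G2' hDER hFIN (by linarith) hK h
    have a3 := G1' hFIN hST (K := K) one_pos (show (1 : ℝ) < μ + 1 by linarith)
    omega
  · have a1 := G1 hFIN hST one_pos hgt hK h
    have a2 := G1 hFIN hST (show 0 < μ - 1 by linarith) (show μ - 1 < 1 by linarith) hK h1
    have a3 := G2 hDER hFIN (K := K) (show -1 < μ - 1 by linarith)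
    rw [sub_add_cancel] at a3
    omega

/-- two consecutive orders have no common zeros -/
theorem zero_ne (hREC : S_BREC) (hFIN : S_BFIN) (hST : S_STURM) {K : ℝ} (hK : 0 < K)
    (h1 : Bf 1 K = 0) : Bf 0 K ≠ 0 := by
  intro h0
  have hall : ∀ n : ℕ, Bf n K = 0 ∧ Bf (n + 1) K = 0 := by
    intro n
    induction n with
    | zero => simpa using ⟨h0, h1⟩
    | succ n ih =>
      refine ⟨by push_cast; exact ih.2, ?_⟩
      have h2 := hREC n K (fun m => by positivity)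
      rw [ih.1, ih.2, zero_sub, eq_comm, neg_eq_zero, mul_eq_zero] at h2
      have h3 : K / (((n : ℝ) + 1) * (n + 2)) ≠ 0 := by positivity
      have h4 := h2.resolve_left h3
      rw [show (n : ℝ) + 2 = ((n + 1 : ℕ) : ℝ) + 1 by push_cast; ring] at h4
      exact h4
  have hc : ∀ m : ℕ, (Z ((m : ℝ) + 1) K).ncard + m ≤ (Z 1 K).ncard := by
    intro m
    induction m with
    | zero => simp
    | succ m ih =>
      have h2 := G1 hFIN hST (μ := (m : ℝ) + 1) (ν := ((m + 1 : ℕ) : ℝ) + 1) (by positivity)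
        (by push_cast; linarith) hK (hall (m + 1)).2
      omega
  have := hc ((Z 1 K).ncard + 1)
  omega

/-- signs at a zero of `J_1` -/
theorem signs (hDER : S_BDER) (hREC : S_BREC) (hCONT : S_BCONT) (hFIN : S_BFIN)
    (hST : S_STURM) {K : ℝ} (hK : 0 < K) (h1 : Bf 1 K = 0) {μ : ℝ} (hμ0 : 0 < μ) (hμ1 : μ < 1) :
    Bf μ K * Bf (μ + 1) K < 0 := by
  have h0 := zero_ne hREC hFIN hST hK h1
  have h02 : Bf 0 K = -(K / 2) * Bf 2 K := by
    have := hREC 0 K (fun m => by positivity)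
    norm_num at this
    rw [h1] at this
    rw [this]
    ring
  have h2 : Bf 2 K ≠ 0 := by
    intro h
    rw [h, mul_zero] at h02
    exact h0 h02
  have hne : ∀ x ∈ Icc (0 : ℝ) 2, x ≠ 1 → Bf x K ≠ 0 := by
    intro x hx hx1
    rcases hx.1.eq_or_lt with h | h
    · rw [← h]; exact h0
    rcases hx.2.eq_or_lt with h' | h'
    · rw [h']; exact h2
    · exact ne_of_pos hDER hFIN hST hK h1 h h' hx1
  -- `Bf μ K` has the sign of `Bf 0 K`
  have hs : ∀ x y : ℝ, x ≤ y → (∀ t ∈ Icc x y, t ∈ Icc (0 : ℝ) 2 ∧ t ≠ 1) →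
      0 < Bf x K * Bf y K := by
    intro x y hxy hm
    have hc : ContinuousOn (fun t => Bf t K) (Icc x y) := (hCONT K).mono fun t ht => (hm t ht).1
    have hx := hne x (hm x (left_mem_Icc.2 hxy)).1 (hm x (left_mem_Icc.2 hxy)).2
    have hy := hne y (hm y (right_mem_Icc.2 hxy)).1 (hm y (right_mem_Icc.2 hxy)).2
    by_contra hcon
    have hlt : Bf x K * Bf y K < 0 := lt_of_le_of_ne (not_lt.1 hcon) (mul_ne_zero hx hy)
    rcases mul_neg_iff.1 hlt with ⟨h3, h4⟩ | ⟨h3, h4⟩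
    · obtain ⟨t, ht, h5⟩ := intermediate_value_Icc' hxy hc ⟨h4.le, h3.le⟩
      exact hne t (hm t ht).1 (hm t ht).2 h5
    · obtain ⟨t, ht, h5⟩ := intermediate_value_Icc hxy hc ⟨h3.le, h4.le⟩
      exact hne t (hm t ht).1 (hm t ht).2 h5
  have a1 := hs 0 μ hμ0.le fun t ht =>
    ⟨⟨ht.1, by linarith [ht.2]⟩, fun h => by linarith [ht.2]⟩
  have a2 := hs (μ + 1) 2 (by linarith) fun t ht =>
    ⟨⟨by linarith [ht.1], ht.2⟩, fun h => by linarith [ht.1]⟩
  rw [h02] at a1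
  -- the two products
  by_contra hcon
  push Not at hcon
  have a3 : 0 < (-(K / 2) * Bf 2 K * Bf μ K) * (Bf (μ + 1) K * Bf 2 K) := mul_pos a1 a2
  have a4 : (-(K / 2) * Bf 2 K * Bf μ K) * (Bf (μ + 1) K * Bf 2 K) =
      -((K / 2) * Bf 2 K ^ 2 * (Bf μ K * Bf (μ + 1) K)) := by ring
  rw [a4] at a3
  have a5 : 0 ≤ (K / 2) * Bf 2 K ^ 2 * (Bf μ K * Bf (μ + 1) K) := by positivity
  linarith

/-- **No common zeros (real form).** -/
theorem ne_neg (hDER : S_BDER) (hREC : S_BREC) (hCONT : S_BCONT) (hFIN : S_BFIN)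
    (hST : S_STURM) {K : ℝ} (hK : 0 < K) (h1 : Bf 1 K = 0) {ν : ℝ} (hν0 : 0 < ν) (hν2 : ν < 2)
    (hν1 : ν ≠ 1) : Bf (-ν) K ≠ 0 := by
  -- the order `μ` in `(0, 1)`
  have key : ∀ μ : ℝ, 0 < μ → μ < 1 → 0 < Bf μ K * Bf (μ - 1) K ∧ 0 < Bf μ K * Bf (μ - 2) K := by
    intro μ hμ0 hμ1
    have h2 := signs hDER hREC hCONT hFIN hST hK h1 hμ0 hμ1
    have hne1 : ∀ n : ℕ, μ - 1 + n + 1 ≠ 0 := fun n => by
      have : 0 < μ - 1 + n + 1 := by linarith [n.cast_nonneg (α := ℝ)]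
      exact this.ne'
    have hne2 : ∀ n : ℕ, μ - 2 + n + 1 ≠ 0 := fun n => by
      rcases Nat.eq_zero_or_pos n with h | h
      · rw [h]
        push_cast
        intro h3
        linarith
      · have h4 : (1 : ℝ) ≤ n := by exact_mod_cast h
        have : 0 < μ - 2 + n + 1 := by linarith
        exact this.ne'
    have h3 := hREC (μ - 1) K hne1
    have h4 := hREC (μ - 2) K hne2
    rw [show μ - 1 + 1 = μ by ring, show μ - 1 + 2 = μ + 1 by ring] at h3
    rw [show μ - 2 + 1 = μ - 1 by ring, show μ - 2 + 2 = μ by ring] at h4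
    have hB : Bf μ K ≠ 0 := by
      intro h
      rw [h, zero_mul] at h2
      exact lt_irrefl _ h2
    have hB2 : 0 < Bf μ K ^ 2 := by positivity
    have h5 : 0 < Bf μ K * Bf (μ - 1) K := by
      have e : Bf μ K * Bf (μ - 1) K = Bf μ K ^ 2 +
          K / (μ * (μ + 1)) * -(Bf μ K * Bf (μ + 1) K) := by
        rw [h3]
        ring
      rw [e]
      have : 0 < K / (μ * (μ + 1)) := by positivity
      have h6 : 0 < -(Bf μ K * Bf (μ + 1) K) := by linarith
      positivity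
    refine ⟨h5, ?_⟩
    have e : Bf μ K * Bf (μ - 2) K = Bf μ K * Bf (μ - 1) K +
        K / ((1 - μ) * μ) * Bf μ K ^ 2 := by
      have h7 : μ - 1 ≠ 0 := by linarith
      have h8 : 1 - μ ≠ 0 := by linarith
      have h9 : (μ - 1) = -(1 - μ) := by ring
      rw [h4, h9]
      field_simp
      ring
    rw [e]
    have : 0 < K / ((1 - μ) * μ) := by
      have : 0 < 1 - μ := by linarith
      positivity
    positivity
  rcases lt_or_gt_of_ne hν1 with h | h
  · have h2 := (key (1 - ν) (by linarith) (by linarith)).1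
    rw [show 1 - ν - 1 = -ν by ring] at h2
    intro h3
    rw [h3, mul_zero] at h2
    exact lt_irrefl _ h2
  · have h2 := (key (2 - ν) (by linarith) (by linarith)).2
    rw [show 2 - ν - 2 = -ν by ring] at h2
    intro h3
    rw [h3, mul_zero] at h2
    exact lt_irrefl _ h2

/-- **No common zeros.** -/
theorem no_common (hDER : S_BDER) (hREC : S_BREC) (hCONT : S_BCONT) (hFIN : S_BFIN)
    (hST : S_STURM) (hREAL : S_BREAL) (hFc : ∀ μ k : ℝ, Fc μ (k : ℂ) = ((Bf μ k : ℝ) : ℂ))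
    {κ : ℂ} (h1 : Fc 1 κ = 0) {ν : ℝ} (hν0 : 0 < ν) (hν2 : ν < 2) (hν1 : ν ≠ 1) :
    Fc (-ν) κ ≠ 0 := by
  obtain ⟨k, hk, rfl⟩ := hREAL κ h1
  rw [hFc, Complex.ofReal_eq_zero] at h1
  rw [hFc, Ne, Complex.ofReal_eq_zero]
  exact ne_neg hDER hREC hCONT hFIN hST hk h1 hν0 hν2 hν1

end Pool.Agent.E8helper32.SB
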